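import Pool.Agent.H53.VK.Stm

set_option autoImplicit false

/-!
# Crew VK, parts RYI and RYH: cutting along a rotating ray
-/

namespace VK

/-- number of `B` points minus number of `A` points with the property `P` -/
def Wt (A B : Finset Pt) (P : Pt → Prop) [DecidablePred P] : ℤ :=
  ((B.filter P).card : ℤ) - ((A.filter P).card : ℤ)

lemma Wt_split (A B : Finset Pt) (P Q : Pt → Prop) [DecidablePred P] [DecidablePred Q] :
    Wt A B P = Wt A B (fun z => P z ∧ Q z) + Wt A B (fun z => P z ∧ ¬ Q z) := by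
  have h : ∀ S : Finset Pt, (S.filter P).card = (S.filter (fun z => P z ∧ Q z)).card +
      (S.filter (fun z => P z ∧ ¬ Q z)).card := by
    intro S
    rw [← Finset.filter_filter, ← Finset.filter_filter]
    exact (Finset.card_filter_add_card_filter_not (s := S.filter P) Q).symm
  unfold Wt
  rw [h A, h B]
  push_cast
  ring

lemma Wt_congr {A B : Finset Pt} {P Q : Pt → Prop} [DecidablePred P] [DecidablePred Q]
    (h : ∀ z ∈ A ∪ B, (P z ↔ Q z)) : Wt A B P = Wt A B Q := by
  unfold Wt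
  rw [Finset.filter_congr fun z hz => h z (Finset.mem_union_left _ hz),
    Finset.filter_congr fun z hz => h z (Finset.mem_union_right _ hz)]

lemma Wt_v {A B : Finset Pt} (hd : Disjoint A B) {v : Pt} (hv : v ∈ B) :
    Wt A B (fun z => z = v) = 1 := by
  unfold Wt
  have h1 : B.filter (fun z => z = v) = {v} := by
    ext z
    simp only [Finset.mem_filter, Finset.mem_singleton]
    exact ⟨fun h => h.2, fun h => ⟨h ▸ hv, h⟩⟩
  have h2 : A.filter (fun z => z = v) = ∅ := by
    ext z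
    simp only [Finset.mem_filter, Finset.notMem_empty, iff_false]
    rintro ⟨h3, rfl⟩
    exact Finset.disjoint_left.1 hd h3 hv
  rw [h1, h2]
  simp

lemma Wt_sum {A B : Finset Pt} (hd : Disjoint A B) (P : Pt → Prop) [DecidablePred P] :
    ∑ z ∈ (A ∪ B).filter P, (if z ∈ B then (1 : ℤ) else -1) = Wt A B P := by
  rw [Finset.filter_union, Finset.sum_union (Finset.disjoint_filter_filter hd)]
  have h1 : ∑ z ∈ A.filter P, (if z ∈ B then (1 : ℤ) else -1) = -((A.filter P).card : ℤ) := by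
    rw [Finset.sum_congr rfl (g := fun _ => (-1 : ℤ))]
    · simp
    · intro z hz
      rw [if_neg (Finset.disjoint_left.1 hd (Finset.mem_filter.1 hz).1)]
  have h2 : ∑ z ∈ B.filter P, (if z ∈ B then (1 : ℤ) else -1) = ((B.filter P).card : ℤ) := by
    rw [Finset.sum_congr rfl (g := fun _ => (1 : ℤ))]
    · simp
    · intro z hz
      rw [if_pos (Finset.mem_filter.1 hz).1]
  rw [h1, h2]
  unfold Wt
  ring

/-- the common part of RYI and RYH -/
lemma ray (hUPC : UPC_stmt) {A B : Finset Pt} (hd : Disjoint A B) (hc : A.card = B.card) {v : Pt}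
    (hv : v ∈ B) (t h : Fn) (tv : ev t v = 0) (hv0 : ev h v = 0)
    (supp : ∀ z ∈ A ∪ B, 0 ≤ ev h z) (D : Pt → Prop) [DecidablePred D] (hDv : ¬ D v)
    (hpos : ∀ z ∈ A ∪ B, z ≠ v → ¬ D z → ev h z = 0 → 0 < ev t z)
    (hD : ∀ s : ℝ, (∃ z ∈ A ∪ B, z ≠ v ∧ ¬ D z ∧ 0 < ev h z ∧ ev t z = s * ev h z) →
      ∀ z ∈ A ∪ B, D z → ev t z < s * ev h z)
    (cD : Wt A B D ≤ -1)
    (cr : Wt A B (fun z => z ≠ v ∧ ev h z = 0 ∧ ¬ D z) ≤ -1) :
    ∃ s : ℝ, (∃ z ∈ A ∪ B, z ≠ v ∧ ¬ D z ∧ 0 < ev h z ∧ ev t z = s * ev h z) ∧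
      (A.filter (fun z => 0 ≤ ev (lin 1 t (-s) h 0) z)).card + 1 ≤
        (B.filter (fun z => 0 ≤ ev (lin 1 t (-s) h 0) z)).card ∧
      (A.filter (fun z => ev (lin 1 t (-s) h 0) z ≤ 0)).card + 1 ≤
        (B.filter (fun z => ev (lin 1 t (-s) h 0) z ≤ 0)).card := by
  have hW0 : Wt A B (fun _ => True) = 0 := by
    unfold Wt
    simp [hc]
  have hWne : Wt A B (fun z => z ≠ v ∧ ¬ D z) = - 1 - Wt A B D := by
    have e1 := Wt_split A B (fun _ => True) (fun z => z = v)
    have e2 : Wt A B (fun z => True ∧ z = v) = 1 := by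
      rw [← Wt_v hd hv]
      exact Wt_congr fun z _ => by simp
    have e3 := Wt_split A B (fun z => True ∧ ¬ z = v) D
    have e4 : Wt A B (fun z => (True ∧ ¬ z = v) ∧ D z) = Wt A B D :=
      Wt_congr fun z _ => ⟨fun h => h.2, fun h => ⟨⟨trivial, fun h1 => hDv (h1 ▸ h)⟩, h⟩⟩
    have e5 : Wt A B (fun z => (True ∧ ¬ z = v) ∧ ¬ D z) = Wt A B (fun z => z ≠ v ∧ ¬ D z) :=
      Wt_congr fun z _ => by simp
    rw [e5, e4] at e3
    rw [e2, e3, hW0] at e1
    linarith
  obtain ⟨s, ⟨z0, hz0, hz0h, hz0t⟩, h1, h2⟩ := hUPC ((A ∪ B).filter fun z => z ≠ v ∧ ¬ D z) t h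
    (fun z => if z ∈ B then 1 else -1) (-1)
    (fun z hz => supp z (Finset.mem_filter.1 hz).1)
    (fun z hz h0 => hpos z (Finset.mem_filter.1 hz).1 (Finset.mem_filter.1 hz).2.1
      (Finset.mem_filter.1 hz).2.2 h0)
    (by
      rw [Finset.filter_filter, Wt_sum hd]
      refine le_trans (le_of_eq ?_) cr
      exact Wt_congr fun z _ => by tauto)
    (by
      rw [Wt_sum hd, hWne]
      linarith)
  have hz0' := (Finset.mem_filter.1 hz0)
  have hex : ∃ z ∈ A ∪ B, z ≠ v ∧ ¬ D z ∧ 0 < ev h z ∧ ev t z = s * ev h z :=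
    ⟨z0, hz0'.1, hz0'.2.1, hz0'.2.2, hz0h, hz0t⟩
  have hDs := hD s hex
  rw [Finset.filter_filter, Wt_sum hd] at h1 h2
  refine ⟨s, hex, ?_, ?_⟩
  · have e1 := Wt_split A B (fun z => 0 ≤ ev (lin 1 t (-s) h 0) z) (fun z => z = v)
    have e2 : Wt A B (fun z => 0 ≤ ev (lin 1 t (-s) h 0) z ∧ z = v) = 1 := by
      rw [← Wt_v hd hv]
      refine Wt_congr fun z _ => ⟨fun h => h.2, fun h => ⟨?_, h⟩⟩
      rw [h, ev_lin, tv, hv0]
      simp
    have e3 : Wt A B (fun z => 0 ≤ ev (lin 1 t (-s) h 0) z ∧ ¬ z = v) =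
        Wt A B (fun z => (z ≠ v ∧ ¬ D z) ∧ s * ev h z ≤ ev t z) := by
      refine Wt_congr fun z hz => ?_
      rw [ev_lin]
      constructor
      · rintro ⟨h3, h4⟩
        have h5 : s * ev h z ≤ ev t z := by linarith
        exact ⟨⟨h4, fun h6 => absurd (hDs z hz h6) (not_lt.2 h5)⟩, h5⟩
      · rintro ⟨⟨h3, -⟩, h4⟩
        exact ⟨by linarith, h3⟩
    rw [e2, e3] at e1
    unfold Wt at e1 h2
    omega
  · have e1 := Wt_split A B (fun _ => True) (fun z => ev (lin 1 t (-s) h 0) z ≤ 0)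
    have e2 : Wt A B (fun z => True ∧ ev (lin 1 t (-s) h 0) z ≤ 0) =
        Wt A B (fun z => ev (lin 1 t (-s) h 0) z ≤ 0) := Wt_congr fun z _ => by simp
    have e3 : Wt A B (fun z => True ∧ ¬ ev (lin 1 t (-s) h 0) z ≤ 0) =
        Wt A B (fun z => (z ≠ v ∧ ¬ D z) ∧ s * ev h z < ev t z) := by
      refine Wt_congr fun z hz => ?_
      rw [ev_lin, not_le]
      constructor
      · rintro ⟨-, h3⟩
        have h5 : s * ev h z < ev t z := by linarith
        refine ⟨⟨fun h6 => ?_, fun h6 => absurd (hDs z hz h6) (not_lt.2 h5.le)⟩, h5⟩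
        rw [h6, tv, hv0] at h5
        simp at h5
      · rintro ⟨-, h4⟩
        exact ⟨trivial, by linarith⟩
    rw [e2, e3, hW0] at e1
    unfold Wt at e1 h1
    omega

lemma Nc_of_det {t h : Fn} (hdet : det t h ≠ 0) (s c : ℝ) : Nc (lin 1 t (-s) h c) := by
  by_contra hn
  unfold Nc lin at hn
  push Not at hn
  simp only at hn
  apply hdet
  unfold det
  linear_combination h.b * hn.1 - h.a * hn.2

theorem RYI_proved (hUPC : UPC_stmt) (hSPL : SPL_stmt) : RYI_stmt := by
  intro M A B t h w v x hM1 hM2 hd hH hIH hc hI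
  have hne : ∀ z ∈ A, z ≠ v := fun z hz hzv => Finset.disjoint_left.1 hd hz (hzv ▸ hI.hv)
  have key := ray hUPC hd hc hI.hv t h hI.tv hI.zv hI.supp
    (fun z => ev h z = 0 ∧ ev t z < 0) (by rw [hI.tv]; simp)
    (by
      intro z hz hzv hzD h0
      have htx := hI.tx
      have htw := hI.tw
      rcases hI.rest z hz h0 with h1 | h1 | h1 | h1 | h1
      · exact absurd h1 hzv
      · rw [h1]; exact hI.tx
      · exact absurd ⟨h0, by rw [h1]; exact htw⟩ hzD
      · linarith
      · exact absurd ⟨h0, by linarith⟩ hzD)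
    (by
      intro s _ z _ hz
      rw [hz.1, mul_zero]
      exact hz.2)
    (by
      have := hI.cl
      unfold Wt
      omega)
    (by
      have e : Wt A B (fun z => z ≠ v ∧ ev h z = 0 ∧ ¬ (ev h z = 0 ∧ ev t z < 0)) =
          Wt A B (fun z => ev h z = 0 ∧ 0 < ev t z) := by
        refine Wt_congr fun z hz => ⟨?_, ?_⟩
        · rintro ⟨h1, h2, h3⟩
          refine ⟨h2, ?_⟩
          have htx := hI.tx
          have htw := hI.tw
          rcases hI.rest z hz h2 with h4 | h4 | h4 | h4 | h4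
          · exact absurd h4 h1
          · rw [h4]; exact htx
          · exact absurd ⟨h2, by rw [h4]; exact htw⟩ h3
          · linarith
          · exact absurd ⟨h2, by linarith⟩ h3
        · rintro ⟨h1, h2⟩
          refine ⟨?_, h1, fun h3 => by linarith [h3.2]⟩
          rintro rfl
          rw [hI.tv] at h2
          exact lt_irrefl _ h2
      rw [e]
      have := hI.cr
      unfold Wt
      omega)
  obtain ⟨s, ⟨z0, hz0, -, -, hz0h, hz0t⟩, h1, h2⟩ := key
  have hz0g : ev (lin 1 t (-s) h 0) z0 = 0 := by rw [ev_lin, hz0t]; ring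
  have htx := hI.tx
  have htw := hI.tw
  refine hSPL M A B (lin 1 t (-s) h 0) v t h x (lin (-1) t 0 h 0) h w hM1 hM2 hd hH hIH
    (Nc_of_det hI.fr s 0) ?_ ?_ h1 h2 ⟨z0, hz0, hz0g.ge, hz0h⟩ ⟨z0, hz0, hz0g.le, hz0h⟩
  · refine ⟨hI.fr, ?_, ?_, ?_, hI.zv, hI.zx, ?_, ?_⟩
    · rw [Finset.mem_filter, ev_lin, hI.tv, hI.zv]
      exact ⟨hI.hv, by simp⟩
    · rw [Finset.mem_filter, ev_lin, hI.zx]
      exact ⟨hI.hx, by linarith⟩
    · intro z hz
      apply hI.supp
      rw [Finset.mem_union, Finset.mem_filter, Finset.mem_filter] at hz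
      rw [Finset.mem_union]
      tauto
    · rw [hI.tv]; exact htx
    · intro z hz h0
      have hz' : z ∈ A ∪ B ∧ 0 ≤ ev (lin 1 t (-s) h 0) z := by
        rw [Finset.mem_union, Finset.mem_filter, Finset.mem_filter] at hz
        rw [Finset.mem_union]
        tauto
      have h3 := hz'.2
      rw [ev_lin, h0] at h3
      rcases hI.rest z hz'.1 h0 with h4 | h4 | h4 | h4 | h4
      · exact Or.inl h4
      · exact Or.inr (Or.inl h4)
      · rw [h4] at h3
        linarith
      · exact Or.inr (Or.inr h4)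
      · linarith
  · refine ⟨?_, ?_, ?_, ?_, hI.zv, hI.zw, ?_, ?_⟩
    · have := hI.fr
      unfold det lin at *
      intro h3
      apply this
      simp only at h3
      linear_combination -h3
    · rw [Finset.mem_filter, ev_lin, hI.tv, hI.zv]
      exact ⟨hI.hv, by simp⟩
    · rw [Finset.mem_filter, ev_lin, hI.zw]
      exact ⟨hI.hw, by linarith⟩
    · intro z hz
      apply hI.supp
      rw [Finset.mem_union, Finset.mem_filter, Finset.mem_filter] at hz
      rw [Finset.mem_union]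
      tauto
    · rw [ev_lin, ev_lin, hI.tv]; linarith
    · intro z hz h0
      have hz' : z ∈ A ∪ B ∧ ev (lin 1 t (-s) h 0) z ≤ 0 := by
        rw [Finset.mem_union, Finset.mem_filter, Finset.mem_filter] at hz
        rw [Finset.mem_union]
        tauto
      have h3 := hz'.2
      rw [ev_lin, h0] at h3
      rcases hI.rest z hz'.1 h0 with h4 | h4 | h4 | h4 | h4
      · exact Or.inl h4
      · rw [h4] at h3
        linarith
      · exact Or.inr (Or.inl h4)
      · linarith
      · right; right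
        rw [ev_lin, ev_lin]
        linarith

theorem RYH_proved (hUPC : UPC_stmt) (hSPL : SPL_stmt) : RYH_stmt := by
  intro M A B t h t2 h2 v x w hM1 hM2 hd hH hIH hc hE hE2 hx2 hcr hcl
  have hne : ∀ z ∈ A, z ≠ v := fun z hz hzv => Finset.disjoint_left.1 hd hz (hzv ▸ hE.hv)
  set t' : Fn := lin 1 t 0 h (-ev t v) with ht'
  have et' : ∀ z, ev t' z = ev t z - ev t v := fun z => by rw [ht', ev_lin]; ring
  have hdet' : det t' h = det t h := by
    rw [ht']
    unfold det lin
    simp only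
    ring
  -- points of the line `h = 0`
  have hline : ∀ z ∈ A ∪ B, z ≠ v → ev h z = 0 → 0 < ev t' z := by
    intro z hz hzv h0
    rw [et']
    have := hE.ord
    rcases hE.rest z hz h0 with h1 | h1 | h1
    · exact absurd h1 hzv
    · rw [h1]; linarith
    · linarith
  -- `h2 = α t' + β h`
  obtain ⟨α, β, hαβ⟩ : ∃ α β : ℝ, ∀ z, ev h2 z = α * ev t' z + β * ev h z := by
    refine ⟨det h2 h / det t h, det t h2 / det t h, fun z => ?_⟩
    have hfr := hE.fr
    have e1 := hE.zv
    have e2 := hE2.zv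
    have e3 : det t h * ev h2 z = det h2 h * ev t' z + det t h2 * ev h z := by
      rw [et']
      unfold ev at *
      unfold det
      linear_combination (t.a * h.b - t.b * h.a) * e2 - (t.a * h2.b - t.b * h2.a) * e1
    field_simp
    linarith
  have hα : 0 < α := by
    have h3 := hαβ x
    rw [hE.zx, mul_zero, add_zero] at h3
    have h4 := hline x (Finset.mem_union_left _ hE.hx) (hne x hE.hx) hE.zx
    rw [h3] at hx2
    exact (pos_iff_pos_of_mul_pos hx2).2 h4
  have hlineD : ∀ z ∈ A ∪ B, z ≠ v → ev h z = 0 → 0 < ev h2 z := by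
    intro z hz hzv h0
    rw [hαβ, h0]
    have := hline z hz hzv h0
    nlinarith
  have key := ray hUPC hd hc hE.hv t' h (by rw [et']; ring) hE.zv hE.supp
    (fun z => z ≠ v ∧ ev h2 z = 0) (by simp)
    (fun z hz hzv _ h0 => hline z hz hzv h0)
    (by
      rintro s ⟨z', hz', hzv', hzD', hzh', hzt'⟩ z hz ⟨hzv, hz2⟩
      have h3 : 0 < ev h2 z' := lt_of_le_of_ne (hE2.supp z' hz') (fun h4 => hzD' ⟨hzv', h4.symm⟩)
      have h4 : 0 < (α * s + β) * ev h z' := by
        have := hαβ z'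
        rw [hzt'] at this
        nlinarith
      have h5 : 0 < α * s + β := (pos_iff_pos_of_mul_pos h4).2 hzh'
      have h6 : 0 < ev h z := by
        refine lt_of_le_of_ne (hE.supp z hz) (fun h7 => ?_)
        have := hlineD z hz hzv h7.symm
        linarith
      have h7 := hαβ z
      rw [hz2] at h7
      have h8 : 0 < α * (s * ev h z - ev t' z) := by nlinarith [mul_pos h5 h6]
      have h9 := (pos_iff_pos_of_mul_pos h8).1 hα
      linarith)
    (by
      have e1 := Wt_split A B (fun z => ev h2 z = 0) (fun z => z = v)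
      have e2 : Wt A B (fun z => ev h2 z = 0 ∧ z = v) = 1 := by
        rw [← Wt_v hd hE.hv]
        exact Wt_congr fun z _ => ⟨fun h => h.2, fun h => ⟨by rw [h]; exact hE2.zv, h⟩⟩
      have e3 : Wt A B (fun z => z ≠ v ∧ ev h2 z = 0) =
          Wt A B (fun z => ev h2 z = 0 ∧ ¬ z = v) := Wt_congr fun z _ => by tauto
      rw [e3]
      rw [e2] at e1
      have e4 : Wt A B (fun z => ev h2 z = 0) ≤ 0 := by
        unfold Wt
        omega
      linarith)
    (by
      have e1 := Wt_split A B (fun z => ev h z = 0) (fun z => z = v)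
      have e2 : Wt A B (fun z => ev h z = 0 ∧ z = v) = 1 := by
        rw [← Wt_v hd hE.hv]
        exact Wt_congr fun z _ => ⟨fun h => h.2, fun h => ⟨by rw [h]; exact hE.zv, h⟩⟩
      have e3 : Wt A B (fun z => z ≠ v ∧ ev h z = 0 ∧ ¬ (z ≠ v ∧ ev h2 z = 0)) =
          Wt A B (fun z => ev h z = 0 ∧ ¬ z = v) := by
        refine Wt_congr fun z hz => ⟨fun h => ⟨h.2.1, h.1⟩, fun h => ⟨h.2, h.1, ?_⟩⟩
        rintro ⟨-, h3⟩
        have := hlineD z hz h.2 h.1
        linarith
      rw [e3]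
      rw [e2] at e1
      have e4 : Wt A B (fun z => ev h z = 0) ≤ 0 := by
        unfold Wt
        omega
      linarith)
  obtain ⟨s, ⟨z0, hz0, hz0v, hz0D, hz0h, hz0t⟩, h1, h3⟩ := key
  have hz0g : ev (lin 1 t' (-s) h 0) z0 = 0 := by rw [ev_lin, hz0t]; ring
  have hz02 : 0 < ev h2 z0 := lt_of_le_of_ne (hE2.supp z0 hz0) (fun h4 => hz0D ⟨hz0v, h4.symm⟩)
  have h5 : 0 < α * s + β := by
    have h4 : 0 < (α * s + β) * ev h z0 := by
      have := hαβ z0
      rw [hz0t] at this
      nlinarith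
    exact (pos_iff_pos_of_mul_pos h4).2 hz0h
  refine hSPL M A B (lin 1 t' (-s) h 0) v t h x t2 h2 w hM1 hM2 hd hH hIH
    (Nc_of_det (by rw [hdet']; exact hE.fr) s 0) ?_ ?_ h1 h3 ⟨z0, hz0, hz0g.ge, hz0h⟩
    ⟨z0, hz0, hz0g.le, hz02⟩
  · refine ⟨hE.fr, ?_, ?_, ?_, hE.zv, hE.zx, hE.ord, ?_⟩
    · rw [Finset.mem_filter, ev_lin, et', hE.zv]
      exact ⟨hE.hv, by simp⟩
    · have h4 := hline x (Finset.mem_union_left _ hE.hx) (hne x hE.hx) hE.zx
      rw [Finset.mem_filter, ev_lin, hE.zx]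
      exact ⟨hE.hx, by linarith⟩
    · intro z hz
      apply hE.supp
      rw [Finset.mem_union, Finset.mem_filter, Finset.mem_filter] at hz
      rw [Finset.mem_union]
      tauto
    · intro z hz h0
      apply hE.rest z _ h0
      rw [Finset.mem_union, Finset.mem_filter, Finset.mem_filter] at hz
      rw [Finset.mem_union]
      tauto
  · refine ⟨hE2.fr, ?_, ?_, ?_, hE2.zv, hE2.zx, hE2.ord, ?_⟩
    · rw [Finset.mem_filter, ev_lin, et', hE.zv]
      exact ⟨hE.hv, by simp⟩
    · have h6 : 0 < ev h w := by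
        refine lt_of_le_of_ne (hE.supp w (Finset.mem_union_left _ hE2.hx)) (fun h7 => ?_)
        have := hlineD w (Finset.mem_union_left _ hE2.hx) (hne w hE2.hx) h7.symm
        rw [hE2.zx] at this
        exact lt_irrefl _ this
      have h7 := hαβ w
      rw [hE2.zx] at h7
      have h8 : 0 < α * (s * ev h w - ev t' w) := by nlinarith [mul_pos h5 h6]
      have h9 := (pos_iff_pos_of_mul_pos h8).1 hα
      rw [Finset.mem_filter, ev_lin]
      exact ⟨hE2.hx, by linarith⟩
    · intro z hz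
      apply hE2.supp
      rw [Finset.mem_union, Finset.mem_filter, Finset.mem_filter] at hz
      rw [Finset.mem_union]
      tauto
    · intro z hz h0
      apply hE2.rest z _ h0
      rw [Finset.mem_union, Finset.mem_filter, Finset.mem_filter] at hz
      rw [Finset.mem_union]
      tauto

end VK
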